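import Pool.Agent.J6H32.Leg.Basic

set_option autoImplicit false

/-!
# Asymptotics of the binomial sums
-/

namespace Pool.Agent.J6H32.Leg

open Polynomial Finset Nat Filter Topology

/-- The polynomial `∏ i < j, (X - i (i + 1))`. -/
noncomputable def Bp (j : ℕ) : ℝ[X] := ∏ i ∈ range j, (X - C ((i : ℝ) * (i + 1)))

theorem Bp_eval (j : ℕ) (y : ℝ) : (Bp j).eval y = B y j := by
  rw [Bp, eval_prod, B]
  apply prod_congr rfl
  intro i _
  simp

theorem Bp_monic (j : ℕ) : (Bp j).Monic := monic_prod_of_monic _ _ fun _ _ => monic_X_sub_C _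

theorem Bp_natDegree (j : ℕ) : (Bp j).natDegree = j := by
  rw [Bp, natDegree_prod_of_monic _ _ fun _ _ => monic_X_sub_C _]
  simp only [natDegree_X_sub_C]
  simp

theorem Bp_coeff (j : ℕ) : (Bp j).coeff j = 1 := by
  have := (Bp_monic j).coeff_natDegree
  rwa [Bp_natDegree] at this

theorem S_add (N : ℕ) (f g : ℕ → ℝ) : S N (fun k => f k + g k) = S N f + S N g := by
  unfold S
  rw [← sum_add_distrib]
  exact sum_congr rfl fun k _ => by ring

theorem S_mul (N : ℕ) (c : ℝ) (f : ℕ → ℝ) : S N (fun k => c * f k) = c * S N f := by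
  unfold S
  rw [mul_sum]
  exact sum_congr rfl fun k _ => by ring

theorem tendsto_desc (r : ℕ) :
    Tendsto (fun N : ℕ => (N.descFactorial r : ℝ) / (N : ℝ) ^ r) atTop (𝓝 1) := by
  induction r with
  | zero => simp
  | succ r ih =>
    have h1 : Tendsto (fun N : ℕ => 1 - (r : ℝ) / N) atTop (𝓝 (1 - 0)) :=
      tendsto_const_nhds.sub (tendsto_const_div_atTop_nhds_zero_nat _)
    have h2 := ih.mul h1
    rw [sub_zero, mul_one] at h2
    apply h2.congr'
    filter_upwards [eventually_ge_atTop 1] with N hN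
    have hN0 : (N : ℝ) ≠ 0 := by
      have : 0 < N := hN
      positivity
    rw [desc_succ, pow_succ]
    field_simp

theorem central_le (N : ℕ) : ((N.centralBinom : ℝ) / 4 ^ N) ^ 2 * (2 * N + 1) ≤ 1 := by
  induction N with
  | zero => simp
  | succ N ih =>
    have h1 : ((N : ℝ) + 1) * (N + 1).centralBinom = 2 * (2 * N + 1) * N.centralBinom := by
      exact_mod_cast Nat.succ_mul_centralBinom_succ N
    have h2 : ((N + 1).centralBinom : ℝ) / 4 ^ (N + 1) =
        ((N.centralBinom : ℝ) / 4 ^ N) * ((2 * N + 1) / (2 * N + 2)) := by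
      have : ((N + 1).centralBinom : ℝ) = 2 * (2 * N + 1) * N.centralBinom / (N + 1) := by
        rw [eq_div_iff (by positivity)]; linarith
      rw [this]
      have h3 : (2 * (N : ℝ) + 2) = 2 * (N + 1) := by ring
      rw [h3, pow_succ]
      field_simp
      ring
    rw [h2]
    push_cast
    have h3 : ((2 * (N : ℝ) + 1) / (2 * N + 2)) ^ 2 * (2 * (N + 1) + 1) ≤ 2 * N + 1 := by
      rw [div_pow, div_mul_eq_mul_div, div_le_iff₀ (by positivity)]
      have : (0 : ℝ) ≤ N := N.cast_nonneg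
      nlinarith
    calc ((N.centralBinom : ℝ) / 4 ^ N * ((2 * N + 1) / (2 * N + 2))) ^ 2 * (2 * (N + 1) + 1)
        = ((N.centralBinom : ℝ) / 4 ^ N) ^ 2 * (((2 * N + 1) / (2 * N + 2)) ^ 2 * (2 * (N + 1) + 1)) := by ring
      _ ≤ ((N.centralBinom : ℝ) / 4 ^ N) ^ 2 * (2 * N + 1) := by
        exact mul_le_mul_of_nonneg_left h3 (sq_nonneg _)
      _ ≤ 1 := ih

theorem tendsto_central : Tendsto (fun N : ℕ => (N.centralBinom : ℝ) / 4 ^ N) atTop (𝓝 0) := by
  have h1 : Tendsto (fun N : ℕ => (1 : ℝ) / (2 * N + 1)) atTop (𝓝 0) := by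
    apply tendsto_const_nhds.div_atTop
    apply tendsto_atTop_add_const_right
    exact (tendsto_natCast_atTop_atTop).const_mul_atTop (by norm_num)
  have h2 : Tendsto (fun N : ℕ => ((N.centralBinom : ℝ) / 4 ^ N) ^ 2) atTop (𝓝 0) := by
    apply squeeze_zero (fun _ => sq_nonneg _) _ h1
    intro N
    rw [le_div_iff₀ (by positivity)]
    exact central_le N
  have h3 := (Real.continuous_sqrt.tendsto 0).comp h2
  rw [Real.sqrt_zero] at h3
  refine h3.congr fun N => ?_
  simp only [Function.comp_apply]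
  rw [Real.sqrt_sq (by positivity)]

/-- Reduction of the top coefficient. -/
theorem reduce {r : ℕ} {p : ℝ[X]} (hp : p.natDegree ≤ r + 1) :
    (p - C (p.coeff (r + 1)) * Bp (r + 1)).natDegree ≤ r := by
  rw [natDegree_le_iff_coeff_eq_zero]
  intro i hi
  rw [coeff_sub, coeff_C_mul]
  rcases eq_or_lt_of_le (show r + 1 ≤ i from hi) with h | h
  · rw [← h, Bp_coeff, mul_one, sub_self]
  · have h2 : (Bp (r + 1)).coeff i = 0 :=
      coeff_eq_zero_of_natDegree_lt (by rw [Bp_natDegree]; exact h)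
    rw [coeff_eq_zero_of_natDegree_lt (lt_of_le_of_lt hp h), h2, mul_zero, sub_self]

theorem reduce_zero {p : ℝ[X]} (hp : p.natDegree ≤ 0) : p = C (p.coeff 0) * Bp 0 := by
  rw [eq_C_of_natDegree_le_zero hp]
  simp [Bp]

theorem asy_even (r : ℕ) : ∀ p : ℝ[X], p.natDegree ≤ r →
    Tendsto (fun N : ℕ => S N (fun k => p.eval ((k : ℝ) * (k + 1))) / (4 ^ N * (N : ℝ) ^ r)) atTop
      (𝓝 (p.coeff r * cc r)) := by
  have key : ∀ (r : ℕ) (c : ℝ), Tendsto (fun N : ℕ =>
      S N (fun k => (C c * Bp r).eval ((k : ℝ) * (k + 1))) / (4 ^ N * (N : ℝ) ^ r)) atTop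
      (𝓝 (c * cc r)) := by
    intro r c
    have h1 := (tendsto_desc r).const_mul (c * cc r)
    rw [mul_one] at h1
    refine h1.congr fun N => ?_
    have h2 : S N (fun k => (C c * Bp r).eval ((k : ℝ) * (k + 1))) =
        c * (4 ^ N * (cc r * (N.descFactorial r : ℝ))) := by
      rw [← S_even, ← S_mul]
      congr 1
      funext k
      rw [eval_mul, eval_C, Bp_eval, one_mul]
    rw [h2]
    have h4 : (4 : ℝ) ^ N ≠ 0 := by positivity
    rw [show c * (4 ^ N * (cc r * (N.descFactorial r : ℝ))) =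
      4 ^ N * (c * cc r * (N.descFactorial r : ℝ)) by ring, mul_div_mul_left _ _ h4, mul_div_assoc]
  induction r with
  | zero =>
    intro p hp
    have h1 := reduce_zero hp
    have h2 := key 0 (p.coeff 0)
    rw [← h1] at h2
    exact h2
  | succ r ih =>
    intro p hp
    have h1 := ih _ (reduce hp)
    have h2 := key (r + 1) (p.coeff (r + 1))
    have h3 : Tendsto (fun N : ℕ => (1 : ℝ) / N) atTop (𝓝 0) := tendsto_const_div_atTop_nhds_zero_nat _
    have h4 := h2.add (h1.mul h3)
    rw [mul_zero, add_zero] at h4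
    refine h4.congr fun N => ?_
    have h5 : S N (fun k => p.eval ((k : ℝ) * (k + 1))) =
        S N (fun k => (C (p.coeff (r + 1)) * Bp (r + 1)).eval ((k : ℝ) * (k + 1))) +
        S N (fun k => (p - C (p.coeff (r + 1)) * Bp (r + 1)).eval ((k : ℝ) * (k + 1))) := by
      rw [← S_add]
      congr 1
      funext k
      rw [← eval_add]
      congr 1
      ring
    rw [h5, add_div, pow_succ, _root_.div_mul_div_comm, mul_one, ← mul_assoc]

theorem asy_odd (r : ℕ) : ∀ p : ℝ[X], p.natDegree ≤ r →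
    Tendsto (fun N : ℕ => S N (fun k => (2 * (k : ℝ) + 1) * p.eval ((k : ℝ) * (k + 1))) /
      (4 ^ N * (N : ℝ) ^ (r + 1))) atTop (𝓝 0) := by
  have key : ∀ (r : ℕ) (c : ℝ), Tendsto (fun N : ℕ =>
      S N (fun k => (2 * (k : ℝ) + 1) * (C c * Bp r).eval ((k : ℝ) * (k + 1))) /
        (4 ^ N * (N : ℝ) ^ (r + 1))) atTop (𝓝 0) := by
    intro r c
    have h0 : Tendsto (fun N : ℕ => 2 + (1 : ℝ) / N) atTop (𝓝 (2 + 0)) :=
      tendsto_const_nhds.add (tendsto_const_div_atTop_nhds_zero_nat _)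
    have h1 := (((tendsto_desc r).const_mul (c * (r ! : ℝ))).mul h0).mul tendsto_central
    rw [mul_zero] at h1
    apply h1.congr'
    filter_upwards [eventually_ge_atTop 1] with N hN
    have hN0 : (N : ℝ) ≠ 0 := by
      have : 0 < N := hN
      positivity
    have h2 : S N (fun k => (2 * (k : ℝ) + 1) * (C c * Bp r).eval ((k : ℝ) * (k + 1))) =
        c * ((N.choose r : ℝ) * (r ! : ℝ) ^ 2 * ((2 * N + 1)! / (N ! : ℝ) ^ 2)) := by
      rw [← S_odd, ← S_mul]
      congr 1
      funext k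
      rw [eval_mul, eval_C, Bp_eval]
      ring
    have h3 : ((2 * N + 1)! : ℝ) / (N ! : ℝ) ^ 2 = (2 * N + 1) * N.centralBinom := by
      have hf : (N ! : ℝ) ≠ 0 := by exact_mod_cast (Nat.factorial_ne_zero _)
      rw [div_eq_iff (by positivity), Nat.factorial_succ]
      have : (N.centralBinom : ℝ) * (N ! : ℝ) ^ 2 = ((2 * N)! : ℝ) := by
        have h := Nat.choose_mul_factorial_mul_factorial (show N ≤ 2 * N by omega)
        have e : 2 * N - N = N := by omega
        rw [e] at h
        rw [Nat.centralBinom]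
        have h' : ((2 * N).choose N : ℝ) * (N ! : ℝ) * (N ! : ℝ) = ((2 * N)! : ℝ) := by
          exact_mod_cast h
        rw [← h']; ring
      push_cast
      rw [← this]; ring
    have h4 : (N.choose r : ℝ) * (r ! : ℝ) = N.descFactorial r := by
      rw [Nat.descFactorial_eq_factorial_mul_choose]; push_cast; ring
    rw [h2, h3, show c * ((N.choose r : ℝ) * (r ! : ℝ) ^ 2 * ((2 * N + 1) * (N.centralBinom : ℝ))) =
      c * ((N.choose r : ℝ) * (r ! : ℝ)) * (r ! : ℝ) * ((2 * N + 1) * (N.centralBinom : ℝ)) by ring, h4,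
      pow_succ]
    field_simp
  induction r with
  | zero =>
    intro p hp
    have h1 := reduce_zero hp
    have h2 := key 0 (p.coeff 0)
    rw [← h1] at h2
    exact h2
  | succ r ih =>
    intro p hp
    have h1 := ih _ (reduce hp)
    have h2 := key (r + 1) (p.coeff (r + 1))
    have h3 : Tendsto (fun N : ℕ => (1 : ℝ) / N) atTop (𝓝 0) := tendsto_const_div_atTop_nhds_zero_nat _
    have h4 := h2.add (h1.mul h3)
    rw [mul_zero, add_zero] at h4
    refine h4.congr fun N => ?_
    have h5 : S N (fun k => (2 * (k : ℝ) + 1) * p.eval ((k : ℝ) * (k + 1))) =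
        S N (fun k => (2 * (k : ℝ) + 1) *
          (C (p.coeff (r + 1)) * Bp (r + 1)).eval ((k : ℝ) * (k + 1))) +
        S N (fun k => (2 * (k : ℝ) + 1) *
          (p - C (p.coeff (r + 1)) * Bp (r + 1)).eval ((k : ℝ) * (k + 1))) := by
      rw [← S_add]
      congr 1
      funext k
      rw [← mul_add, ← eval_add]
      congr 2
      ring
    rw [h5, add_div, pow_succ _ (r + 1), _root_.div_mul_div_comm, mul_one, ← mul_assoc]

/-- Every polynomial of degree at most `2 e + 1` in `k` is `U(k (k+1)) + (2 k + 1) V(k (k + 1))`. -/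
theorem parity (e : ℕ) : ∀ Q : ℝ[X], Q.natDegree ≤ 2 * e + 1 →
    ∃ U V : ℝ[X], U.natDegree ≤ e ∧ V.natDegree ≤ e ∧ V.coeff e = Q.coeff (2 * e + 1) / 2 ∧
      ∀ x : ℝ, Q.eval x = U.eval (x * (x + 1)) + (2 * x + 1) * V.eval (x * (x + 1)) := by
  induction e with
  | zero =>
    intro Q hQ
    refine ⟨C (Q.coeff 0 - Q.coeff 1 / 2), C (Q.coeff 1 / 2), by simp, by simp, by simp, ?_⟩
    intro x
    have h : Q = C (Q.coeff 1) * X + C (Q.coeff 0) := eq_X_add_C_of_natDegree_le_one hQ
    conv_lhs => rw [h]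
    simp
    ring
  | succ e ih =>
    intro Q hQ
    have hm : (X ^ 2 + X : ℝ[X]).Monic := by
      apply monic_X_pow_add
      rw [degree_X]; norm_num
    have hdeg : (X ^ 2 + X : ℝ[X]).natDegree = 2 := by
      compute_degree!
    set Q1 := Q /ₘ (X ^ 2 + X) with hQ1
    set R := Q %ₘ (X ^ 2 + X) with hR
    have h1 : R + (X ^ 2 + X) * Q1 = Q := modByMonic_add_div Q (X ^ 2 + X)
    have h2 : Q1.natDegree ≤ 2 * e + 1 := by
      rw [hQ1, natDegree_divByMonic _ hm, hdeg]
      omega
    have h3 : R.natDegree ≤ 1 := by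
      have := natDegree_modByMonic_lt Q hm (by
        intro h
        have := congrArg natDegree h
        rw [hdeg] at this
        simp at this)
      rw [hdeg] at this
      change R.natDegree < 2 at this
      omega
    obtain ⟨U, V, hU, hV, hVc, hUV⟩ := ih Q1 h2
    refine ⟨X * U + C (R.coeff 0 - R.coeff 1 / 2), X * V + C (R.coeff 1 / 2), ?_, ?_, ?_, ?_⟩
    · refine (natDegree_add_le _ _).trans (max_le ?_ (by simp))
      exact (natDegree_mul_le).trans (by rw [natDegree_X]; omega)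
    · refine (natDegree_add_le _ _).trans (max_le ?_ (by simp))
      exact (natDegree_mul_le).trans (by rw [natDegree_X]; omega)
    · rw [coeff_add, coeff_X_mul, coeff_C_succ, add_zero, hVc]
      congr 1
      have k1 : (X ^ 2 * Q1 : ℝ[X]).coeff (2 * (e + 1) + 1) = Q1.coeff (2 * e + 1) := by
        rw [show 2 * (e + 1) + 1 = (2 * e + 1) + 2 by ring, coeff_X_pow_mul]
      have k2 : (X * Q1 : ℝ[X]).coeff (2 * (e + 1) + 1) = 0 := by
        rw [show 2 * (e + 1) + 1 = (2 * e + 2) + 1 by ring, coeff_X_mul,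
          coeff_eq_zero_of_natDegree_lt (show Q1.natDegree < 2 * e + 2 by omega)]
      have k3 : R.coeff (2 * (e + 1) + 1) = 0 :=
        coeff_eq_zero_of_natDegree_lt (by omega)
      rw [← h1, coeff_add, add_mul, coeff_add, k1, k2, k3]
      ring
    · intro x
      have hR1 : R = C (R.coeff 1) * X + C (R.coeff 0) := eq_X_add_C_of_natDegree_le_one h3
      have hx : Q.eval x = R.eval x + (x ^ 2 + x) * Q1.eval x := by
        conv_lhs => rw [← h1]
        simp
      rw [hx, hUV x]
      have hR2 : R.eval x = R.coeff 1 * x + R.coeff 0 := by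
        conv_lhs => rw [hR1]
        simp
      rw [hR2]
      simp
      ring

/-- The main asymptotic formula. -/
theorem asy_main (e : ℕ) (Q : ℝ[X]) (hQ : Q.natDegree ≤ 2 * e + 1) (j : ℕ) :
    Tendsto (fun N : ℕ => S N (fun k => (2 * (k : ℝ) + 1) * Q.eval (k : ℝ) *
      B ((k : ℝ) * (k + 1)) j) / (4 ^ N * (N : ℝ) ^ (e + 1 + j))) atTop
      (𝓝 (2 * Q.coeff (2 * e + 1) * cc (e + 1 + j))) := by
  obtain ⟨U, V, hU, hV, hVc, hUV⟩ := parity e Q hQ
  have h1 := asy_odd (e + j) (U * Bp j) ((natDegree_mul_le).trans (by rw [Bp_natDegree]; omega))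
  have hd : ((C 4 * X + C 1) * V * Bp j).natDegree ≤ e + 1 + j := by
    refine (natDegree_mul_le).trans ?_
    rw [Bp_natDegree]
    have : ((C 4 * X + C 1) * V : ℝ[X]).natDegree ≤ 1 + e :=
      (natDegree_mul_le).trans (Nat.add_le_add natDegree_linear_le hV)
    omega
  have h2 := asy_even (e + 1 + j) ((C 4 * X + C 1) * V * Bp j) hd
  have hc : ((C 4 * X + C 1) * V * Bp j).coeff (e + 1 + j) = 2 * Q.coeff (2 * e + 1) := by
    have a1 : ((C 4 * X + C 1) * V : ℝ[X]).natDegree ≤ e + 1 :=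
      (natDegree_mul_le).trans ((Nat.add_le_add natDegree_linear_le hV).trans (by omega))
    rw [coeff_mul_add_eq_of_natDegree_le a1 (by rw [Bp_natDegree]), Bp_coeff, mul_one]
    rw [add_comm e 1, coeff_mul_add_eq_of_natDegree_le natDegree_linear_le hV, hVc]
    simp [coeff_one]
    ring
  rw [hc] at h2
  have h3 := h1.add h2
  rw [zero_add] at h3
  refine h3.congr fun N => ?_
  rw [show e + j + 1 = e + 1 + j by ring, ← add_div, ← S_add]
  congr 2
  funext k
  rw [hUV]
  simp only [eval_mul, eval_add, eval_C, eval_X, Bp_eval]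
  ring

end Pool.Agent.J6H32.Leg
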