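import Pool.Agent.J6H32.Leg.Defs

set_option autoImplicit false

/-!
# Legendre polynomials and binomial sums
-/

namespace Pool.Agent.J6H32.Leg

open Polynomial Finset Nat

theorem iterate_derivative_comp_linear (p : ℝ[X]) (a b : ℝ) (n : ℕ) :
    derivative^[n] (p.comp (C a * X + C b)) = C (a ^ n) * (derivative^[n] p).comp (C a * X + C b) := by
  induction n with
  | zero => simp
  | succ n ih =>
    rw [Function.iterate_succ_apply', ih, Function.iterate_succ_apply', derivative_C_mul,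
      derivative_comp]
    simp only [derivative_add, derivative_mul, derivative_C, derivative_X, zero_mul, mul_one,
      zero_add, add_zero]
    rw [pow_succ, C_mul]
    ring

theorem legendre_comp (n : ℕ) :
    (legendre n).comp (C (-2) * X + C 1) = (shiftedLegendre n).map (Int.castRingHom ℝ) := by
  have hf : (n ! : ℝ) ≠ 0 := by exact_mod_cast (Nat.factorial_ne_zero n)
  have h1 := iterate_derivative_comp_linear ((X ^ 2 - 1 : ℝ[X]) ^ n) (-2) 1 n
  have h2 : ((X ^ 2 - 1 : ℝ[X]) ^ n).comp (C (-2) * X + C 1) =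
      C ((-4) ^ n) * (X ^ n * (1 - X) ^ n) := by
    simp only [pow_comp, sub_comp, X_comp, one_comp]
    have : (C (-2) * X + C 1 : ℝ[X]) ^ 2 - 1 = C (-4) * (X * (1 - X)) := by
      have e2 : (C (-2) : ℝ[X]) = -2 := by rw [C_neg]; rfl
      have e4 : (C (-4) : ℝ[X]) = -4 := by rw [C_neg]; rfl
      rw [e2, e4, C_1]; ring
    rw [this, mul_pow, mul_pow, ← C_pow]
  rw [h2, iterate_derivative_C_mul] at h1
  have h3 : derivative^[n] (X ^ n * (1 - X) ^ n : ℝ[X]) =
      C (n ! : ℝ) * (shiftedLegendre n).map (Int.castRingHom ℝ) := by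
    have := congrArg (Polynomial.map (Int.castRingHom ℝ)) (factorial_mul_shiftedLegendre_eq n)
    rw [Polynomial.map_mul, ← iterate_derivative_map] at this
    simp only [Polynomial.map_mul, Polynomial.map_pow, Polynomial.map_X, Polynomial.map_sub,
      Polynomial.map_one, Polynomial.map_natCast] at this
    rw [← this]
    simp
  rw [h3] at h1
  rw [legendre, mul_comp, C_comp]
  have h4 : (derivative^[n] ((X ^ 2 - 1 : ℝ[X]) ^ n)).comp (C (-2) * X + C 1) =
      C (2 ^ n * (n ! : ℝ)) * (shiftedLegendre n).map (Int.castRingHom ℝ) := by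
    have h5 : C ((-2 : ℝ) ^ n) * (derivative^[n] ((X ^ 2 - 1 : ℝ[X]) ^ n)).comp (C (-2) * X + C 1) =
      C ((-2 : ℝ) ^ n) * (C (2 ^ n * (n ! : ℝ)) * (shiftedLegendre n).map (Int.castRingHom ℝ)) := by
      rw [← h1, ← mul_assoc, ← mul_assoc, ← C_mul, ← C_mul]
      congr 2
      rw [← mul_assoc, ← mul_pow]
      norm_num
    exact mul_left_cancel₀ (by
      rw [Ne, C_eq_zero]
      exact pow_ne_zero _ (by norm_num)) h5
  rw [h4, ← mul_assoc, ← C_mul]
  have : 1 / (2 ^ n * (n ! : ℝ)) * (2 ^ n * (n ! : ℝ)) = 1 := by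
    field_simp
  rw [this, C_1, one_mul]

/-- Sanity check (not used below): `P_n` has degree `n`, so the `P_n` form a basis of the real
polynomials. -/
theorem natDegree_legendre (n : ℕ) : (legendre n).natDegree = n := by
  have h1 := congrArg natDegree (legendre_comp n)
  rw [natDegree_comp, natDegree_linear (by norm_num : (-2 : ℝ) ≠ 0), mul_one,
    natDegree_map_eq_of_injective Int.cast_injective, natDegree_shiftedLegendre] at h1
  exact h1

/-- `B y j = ∏ i < j, (y - i (i + 1))`; for `y = k (k + 1)` this is `(k + j)! / (k - j)!`. -/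
noncomputable def B (y : ℝ) (j : ℕ) : ℝ := ∏ i ∈ range j, (y - i * (i + 1))

theorem B_succ (y : ℝ) (j : ℕ) : B y (j + 1) = B y j * (y - j * (j + 1)) := prod_range_succ _ _

theorem B_eq (k j : ℕ) : B ((k : ℝ) * (k + 1)) j = (k.choose j * (k + j).choose k : ℕ) * (j ! : ℝ) ^ 2 := by
  induction j with
  | zero => simp [B]
  | succ j ih =>
    rw [B_succ, ih]
    have e1 : (k.choose (j + 1) : ℝ) * (j + 1) = k.choose j * ((k : ℝ) - j) := by
      rcases Nat.lt_or_ge k j with h | h
      · rw [Nat.choose_eq_zero_of_lt h, Nat.choose_eq_zero_of_lt (by omega)]; simp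
      · have := Nat.choose_succ_right_eq k j
        have h2 : ((k - j : ℕ) : ℝ) = (k : ℝ) - j := by push_cast [h]; ring
        rw [← h2]; exact_mod_cast this
    have e2 : ((k + (j + 1)).choose k : ℝ) * (j + 1) = (k + j).choose k * ((k : ℝ) + j + 1) := by
      have h1 := Nat.add_one_mul_choose_eq (k + j) j
      have h2 : (k + j).choose j = (k + j).choose k := Nat.choose_symm_add.symm
      have h3 : (k + (j + 1)).choose (j + 1) = (k + (j + 1)).choose k := Nat.choose_symm_add.symm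
      rw [h2] at h1
      have h4 : (k + (j + 1)).choose k * (j + 1) = (k + j + 1) * (k + j).choose k := by
        rw [← h3]
        exact h1.symm
      have : ((k + (j + 1)).choose k : ℝ) * (j + 1) = ((k : ℝ) + j + 1) * (k + j).choose k := by
        exact_mod_cast h4
      rw [this]; ring
    rw [Nat.factorial_succ]
    push_cast
    have : (k.choose (j + 1) : ℝ) * ((k + (j + 1)).choose k : ℝ) * (((j : ℝ) + 1) * (j ! : ℝ)) ^ 2 =
      ((k.choose (j + 1) : ℝ) * (j + 1)) * (((k + (j + 1)).choose k : ℝ) * (j + 1)) * (j ! : ℝ) ^ 2 := by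
      ring
    rw [this, e1, e2]
    ring

theorem B_self_zero {k j : ℕ} (h : k < j) : B ((k : ℝ) * (k + 1)) j = 0 := by
  rw [B_eq, Nat.choose_eq_zero_of_lt h]; simp

theorem coeff_comp_legendre (k j : ℕ) :
    ((legendre k).comp (C (-2) * X + C 1)).coeff j =
      (-1) ^ j * B ((k : ℝ) * (k + 1)) j / (j ! : ℝ) ^ 2 := by
  rw [legendre_comp, coeff_map, coeff_shiftedLegendre, B_eq]
  have hf : (j ! : ℝ) ≠ 0 := by exact_mod_cast (Nat.factorial_ne_zero j)
  push_cast
  field_simp
  simp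

/-- The binomial average `∑_{k ≤ N} binom(2N+1, N-k) w(k)`. -/
noncomputable def S (N : ℕ) (w : ℕ → ℝ) : ℝ :=
  ∑ k ∈ range (N + 1), ((2 * N + 1).choose (N - k) : ℝ) * w k

theorem choose_rec {N k : ℕ} (h : k ≤ N) :
    ((2 * (N + 1) + 1).choose (N + 1 - k) : ℝ) * (((N : ℝ) + 1 - k) * (N + 2 + k)) =
      (2 * N + 3) * (2 * N + 2) * ((2 * N + 1).choose (N - k) : ℝ) := by
  obtain ⟨i, rfl⟩ := Nat.exists_eq_add_of_le h
  -- N = k + i
  have e1 : k + i + 1 - k = i + 1 := by omega
  have e2 : k + i - k = i := by omega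
  rw [e1, e2]
  have h1 := Nat.add_one_mul_choose_eq (2 * (k + i) + 2) i
  have h2 := Nat.choose_succ_right_eq (2 * (k + i) + 2) i
  have h3 : (2 * (k + i) + 2).choose i * (2 * (k + i) + 2 - i) =
      (2 * (k + i) + 2) * (2 * (k + i) + 1).choose i := by
    have := Nat.choose_mul_succ_eq (2 * (k + i) + 1) i
    have e : 2 * (k + i) + 1 + 1 = 2 * (k + i) + 2 := by ring
    rw [e] at this
    rw [← this]
    ring
  have e4 : 2 * (k + i) + 2 - i = 2 * k + i + 2 := by omega
  rw [e4] at h3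
  have h1' : ((2 * (k + i) + 2 + 1 : ℕ) : ℝ) * ((2 * (k + i) + 2).choose i : ℝ) =
      ((2 * (k + i) + 2 + 1).choose (i + 1) : ℝ) * ((i + 1 : ℕ) : ℝ) := by exact_mod_cast h1
  have h3' : ((2 * (k + i) + 2).choose i : ℝ) * ((2 * k + i + 2 : ℕ) : ℝ) =
      ((2 * (k + i) + 2 : ℕ) : ℝ) * ((2 * (k + i) + 1).choose i : ℝ) := by exact_mod_cast h3
  have e5 : 2 * (k + i + 1) + 1 = 2 * (k + i) + 2 + 1 := by ring
  rw [e5]
  push_cast at h1' h3' ⊢
  have : ((2 * (k + i) + 2 + 1).choose (i + 1) : ℝ) * (((k : ℝ) + i + 1 - k) * (k + i + 2 + k)) =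
    (((2 * (k + i) + 2 + 1).choose (i + 1) : ℝ) * ((i : ℝ) + 1)) * (2 * k + i + 2) := by ring
  rw [this, ← h1']
  have : (2 * ((k : ℝ) + i) + 2 + 1) * ((2 * (k + i) + 2).choose i : ℝ) * (2 * k + i + 2) =
    (2 * ((k : ℝ) + i) + 2 + 1) * (((2 * (k + i) + 2).choose i : ℝ) * (2 * k + i + 2)) := by ring
  rw [this, h3']
  ring

theorem S_rec (N j : ℕ) (w : ℕ → ℝ) :
    (2 * (N : ℝ) + 3) * (2 * N + 2) * S N (fun k => w k * B ((k : ℝ) * (k + 1)) j) =
      ((N : ℝ) + 1 - j) * (N + 2 + j) * S (N + 1) (fun k => w k * B ((k : ℝ) * (k + 1)) j) -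
        S (N + 1) (fun k => w k * B ((k : ℝ) * (k + 1)) (j + 1)) := by
  unfold S
  rw [mul_sum, mul_sum, ← sum_sub_distrib, sum_range_succ _ (N + 1)]
  have hlast : ((N : ℝ) + 1 - j) * (N + 2 + j) *
      (((2 * (N + 1) + 1).choose (N + 1 - (N + 1)) : ℝ) *
        (w (N + 1) * B (((N + 1 : ℕ) : ℝ) * (((N + 1 : ℕ) : ℝ) + 1)) j)) -
      ((2 * (N + 1) + 1).choose (N + 1 - (N + 1)) : ℝ) *
        (w (N + 1) * B (((N + 1 : ℕ) : ℝ) * (((N + 1 : ℕ) : ℝ) + 1)) (j + 1)) = 0 := by
    rw [B_succ]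
    push_cast
    ring
  rw [hlast, add_zero]
  apply sum_congr rfl
  intro k hk
  rw [mem_range] at hk
  have h := choose_rec (show k ≤ N by omega)
  beta_reduce
  rw [B_succ]
  have : (2 * (N : ℝ) + 3) * (2 * N + 2) * (((2 * N + 1).choose (N - k) : ℝ) *
      (w k * B ((k : ℝ) * (k + 1)) j)) =
      ((2 * (N : ℝ) + 3) * (2 * N + 2) * ((2 * N + 1).choose (N - k) : ℝ)) *
      (w k * B ((k : ℝ) * (k + 1)) j) := by ring
  rw [this, ← h]
  ring

/-- Uniqueness for the recursion. -/
theorem S_unique (w : ℕ → ℝ) (α : ℕ → ℕ → ℝ)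
    (h0 : ∀ j, α 0 j = if j = 0 then w 0 else 0)
    (hbig : ∀ N j, N < j → α N j = 0)
    (hdiag : ∀ N, α (N + 1) (N + 1) = w (N + 1) * (2 * (N + 1))!)
    (hrec : ∀ N j : ℕ, j ≤ N → (2 * (N : ℝ) + 3) * (2 * N + 2) * α N j =
      ((N : ℝ) + 1 - j) * (N + 2 + j) * α (N + 1) j - α (N + 1) (j + 1)) :
    ∀ N j, S N (fun k => w k * B ((k : ℝ) * (k + 1)) j) = α N j := by
  intro N
  induction N with
  | zero =>
    intro j
    rw [h0]
    unfold S
    rw [sum_range_one]
    split_ifs with hj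
    · subst hj; simp [B]
    · beta_reduce
      rw [B_self_zero (Nat.pos_of_ne_zero hj)]; simp
  | succ N ih =>
    have hb : ∀ j, N + 1 < j → S (N + 1) (fun k => w k * B ((k : ℝ) * (k + 1)) j) = α (N + 1) j := by
      intro j hj
      rw [hbig _ _ hj]
      unfold S
      apply sum_eq_zero
      intro k hk
      rw [mem_range] at hk
      beta_reduce
      rw [B_self_zero (by omega)]; simp
    have hd : S (N + 1) (fun k => w k * B ((k : ℝ) * (k + 1)) (N + 1)) = α (N + 1) (N + 1) := by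
      rw [hdiag]
      unfold S
      rw [sum_range_succ]
      have : ∑ k ∈ range (N + 1), ((2 * (N + 1) + 1).choose (N + 1 - k) : ℝ) *
          (w k * B ((k : ℝ) * (k + 1)) (N + 1)) = 0 := by
        apply sum_eq_zero
        intro k hk
        rw [mem_range] at hk
        rw [B_self_zero hk]; simp
      beta_reduce
      rw [this, zero_add, Nat.sub_self, Nat.choose_zero_right, B_eq, Nat.choose_self]
      have h2 : (N + 1 + (N + 1)).choose (N + 1) * ((N + 1)!) ^ 2 = (2 * (N + 1))! := by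
        have := Nat.add_choose_mul_factorial_mul_factorial (N + 1) (N + 1)
        rw [← two_mul] at this ⊢
        rw [← this]; ring
      rw [← h2]
      push_cast
      ring
    -- downward induction
    intro j
    rcases Nat.lt_or_ge (N + 1) j with h | h
    · exact hb j h
    · obtain ⟨i, hi⟩ := Nat.exists_eq_add_of_le h
      clear h
      induction i generalizing j with
      | zero =>
        have : j = N + 1 := by omega
        rw [this]; exact hd
      | succ i ihi =>
        have hj : j ≤ N := by omega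
        have h1 := S_rec N j w
        have h2 := ihi (j + 1) (by omega)
        rw [ih j, h2, hrec N j hj] at h1
        have h3 : ((N : ℝ) + 1 - j) * (N + 2 + j) ≠ 0 := by
          have : (j : ℝ) ≤ N := by exact_mod_cast hj
          have : 0 < ((N : ℝ) + 1 - j) := by linarith
          positivity
        have h4 : ((N : ℝ) + 1 - j) * (N + 2 + j) * α (N + 1) j =
          ((N : ℝ) + 1 - j) * (N + 2 + j) * S (N + 1) (fun k => w k * B ((k : ℝ) * (k + 1)) j) := by
          linarith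
        exact (mul_left_cancel₀ h3 h4).symm

/-- The sums with weight `2 k + 1`. -/
theorem S_odd (N j : ℕ) : S N (fun k => (2 * (k : ℝ) + 1) * B ((k : ℝ) * (k + 1)) j) =
    (N.choose j : ℝ) * (j ! : ℝ) ^ 2 * ((2 * N + 1)! / (N ! : ℝ) ^ 2) := by
  refine S_unique (fun k => 2 * (k : ℝ) + 1)
    (fun N j => (N.choose j : ℝ) * (j ! : ℝ) ^ 2 * ((2 * N + 1)! / (N ! : ℝ) ^ 2)) ?_ ?_ ?_ ?_ N j
  · intro j
    split_ifs with h
    · subst h; simp
    · rw [Nat.choose_eq_zero_of_lt (Nat.pos_of_ne_zero h)]; simp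
  · intro N j h
    simp only [Nat.choose_eq_zero_of_lt h]; simp
  · intro N
    have hf : ((N + 1)! : ℝ) ≠ 0 := by exact_mod_cast (Nat.factorial_ne_zero _)
    simp only [Nat.choose_self]
    rw [Nat.factorial_succ (2 * (N + 1))]
    push_cast
    field_simp
  · intro N j hj
    have hN : (N ! : ℝ) ≠ 0 := by exact_mod_cast (Nat.factorial_ne_zero _)
    have hN1 : ((N + 1)! : ℝ) = (N + 1) * N ! := by rw [Nat.factorial_succ]; push_cast; ring
    have hj1 : ((j + 1)! : ℝ) = (j + 1) * j ! := by rw [Nat.factorial_succ]; push_cast; ring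
    have h2 : ((2 * (N + 1) + 1)! : ℝ) = (2 * N + 3) * ((2 * N + 2) * (2 * N + 1)!) := by
      rw [show 2 * (N + 1) + 1 = (2 * N + 1) + 1 + 1 by ring, Nat.factorial_succ,
        Nat.factorial_succ]
      push_cast; ring
    have e1 : ((N + 1).choose (j + 1) : ℝ) * (j + 1) = ((N : ℝ) + 1 ) * N.choose j := by
      have := Nat.add_one_mul_choose_eq N j
      have h : ((N + 1).choose (j + 1) : ℝ) * ((j + 1 : ℕ) : ℝ) = ((N + 1 : ℕ) : ℝ) * N.choose j := by
        exact_mod_cast this.symm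
      push_cast at h; exact h
    have e2 : ((N + 1).choose j : ℝ) * ((N : ℝ) + 1 - j) = ((N : ℝ) + 1) * N.choose j := by
      have h1 := Nat.choose_mul_succ_eq N j
      have h3 : ((N + 1 - j : ℕ) : ℝ) = (N : ℝ) + 1 - j := by
        rw [Nat.cast_sub (by omega)]; push_cast; ring
      rw [← h3]
      have : (N.choose j : ℝ) * ((N + 1 : ℕ) : ℝ) = ((N + 1).choose j : ℝ) * ((N + 1 - j : ℕ) : ℝ) := by
        exact_mod_cast h1
      rw [← this]; push_cast; ring
    rw [hN1, hj1, h2]
    have hN1' : (N : ℝ) + 1 ≠ 0 := by positivity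
    field_simp
    have t1 : ((N : ℝ) + 1 - j) * (N + 2 + j) * ((N + 1).choose j : ℝ) =
      (N + 2 + j) * (((N : ℝ) + 1) * N.choose j) := by rw [← e2]; ring
    have t2 : ((N + 1).choose (j + 1) : ℝ) * ((j : ℝ) + 1) ^ 2 =
      (j + 1) * (((N : ℝ) + 1 ) * N.choose j) := by rw [← e1]; ring
    linear_combination (-1 : ℝ) * t1 + t2

/-- `cc j = (2 j - 1)!! / 2 ^ j`. -/
noncomputable def cc (j : ℕ) : ℝ := ∏ i ∈ range j, ((2 * (i : ℝ) + 1) / 2)

theorem cc_succ (j : ℕ) : cc (j + 1) = cc j * ((2 * (j : ℝ) + 1) / 2) := prod_range_succ _ _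

theorem cc_pos (j : ℕ) : 0 < cc j := prod_pos fun i _ => by positivity

theorem desc_succ (N j : ℕ) : (N.descFactorial (j + 1) : ℝ) = ((N : ℝ) - j) * N.descFactorial j := by
  rw [Nat.descFactorial_succ]
  rcases Nat.lt_or_ge N j with h | h
  · rw [Nat.descFactorial_eq_zero_iff_lt.2 h]; simp
  · push_cast [h]; ring

/-- The sums without the weight. -/
theorem S_even (N j : ℕ) : S N (fun k => 1 * B ((k : ℝ) * (k + 1)) j) =
    4 ^ N * (cc j * (N.descFactorial j : ℝ)) := by
  refine S_unique (fun _ => 1)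
    (fun N j => 4 ^ N * (cc j * (N.descFactorial j : ℝ))) ?_ ?_ ?_ ?_ N j
  · intro j
    split_ifs with h
    · subst h; simp [cc]
    · rw [Nat.descFactorial_eq_zero_iff_lt.2 (Nat.pos_of_ne_zero h)]; simp
  · intro N j h
    rw [Nat.descFactorial_eq_zero_iff_lt.2 h]; simp
  · intro N
    rw [Nat.descFactorial_self]
    have key : ∀ M : ℕ, (4 : ℝ) ^ M * (cc M * (M ! : ℝ)) = ((2 * M)! : ℝ) := by
      intro M
      induction M with
      | zero => simp [cc]
      | succ M ih =>
        rw [cc_succ, Nat.factorial_succ, show 2 * (M + 1) = 2 * M + 1 + 1 by ring,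
          Nat.factorial_succ, Nat.factorial_succ]
        push_cast
        rw [← ih]
        ring
    rw [key]; simp
  · intro N j hj
    have e1 : ((N + 1).descFactorial j : ℝ) * ((N : ℝ) + 1 - j) =
        ((N : ℝ) + 1) * N.descFactorial j := by
      have h1 := Nat.succ_descFactorial N j
      have h3 : ((N + 1 - j : ℕ) : ℝ) = (N : ℝ) + 1 - j := by
        rw [Nat.cast_sub (by omega)]; push_cast; ring
      rw [← h3]
      have : ((N + 1 - j : ℕ) : ℝ) * ((N + 1).descFactorial j : ℝ) =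
          ((N + 1 : ℕ) : ℝ) * (N.descFactorial j : ℝ) := by exact_mod_cast h1
      rw [mul_comm, this]; push_cast; ring
    have e2 : ((N + 1).descFactorial (j + 1) : ℝ) = ((N : ℝ) + 1) * N.descFactorial j := by
      rw [Nat.succ_descFactorial_succ]; push_cast; ring
    rw [e2, cc_succ]
    have t1 : ((N : ℝ) + 1 - j) * (N + 2 + j) * (4 ^ (N + 1) * (cc j * ((N + 1).descFactorial j : ℝ))) =
      4 ^ (N + 1) * cc j * (N + 2 + j) * (((N + 1).descFactorial j : ℝ) * ((N : ℝ) + 1 - j)) := by ring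
    rw [t1, e1]
    ring

end Pool.Agent.J6H32.Leg
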