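import Mathlib

set_option autoImplicit false

/-!
# Legendre multiplier sequences: the definitions
-/

namespace Pool.Agent.J6H32.Leg

open Polynomial Finset Nat

/-- The real polynomial `p` has only real zeros: all its complex zeros are real, or it is the zero
polynomial. -/
def OnlyRealZeros (p : ℝ[X]) : Prop := p = 0 ∨ ∀ z : ℂ, aeval z p = 0 → z.im = 0

/-- The Legendre polynomial `P_n(x) = (1 / (2 ^ n n!)) (d / dx) ^ n (x ^ 2 - 1) ^ n`. -/
noncomputable def legendre (n : ℕ) : ℝ[X] :=
  C (1 / (2 ^ n * (n ! : ℝ))) * derivative^[n] ((X ^ 2 - 1) ^ n)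

/-- `γ` is a Legendre multiplier sequence: whenever a real polynomial `∑_{k < n} a_k P_k` has only
real zeros, so has `∑_{k < n} γ_k a_k P_k`. -/
def IsLegendreMultiplierSequence (γ : ℕ → ℝ) : Prop :=
  ∀ (n : ℕ) (a : ℕ → ℝ), OnlyRealZeros (∑ k ∈ range n, C (a k) * legendre k) →
    OnlyRealZeros (∑ k ∈ range n, C (γ k * a k) * legendre k)

end Pool.Agent.J6H32.Leg
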