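import Pool.Agent.J6H32.Leg.Defs

set_option autoImplicit false

/-!
# Polynomials with only real zeros: Laguerre's inequality
-/

namespace Pool.Agent.J6H32.Leg

open Polynomial Finset

theorem orz_mul {p q : ℝ[X]} (hp : OnlyRealZeros p) (hq : OnlyRealZeros q) :
    OnlyRealZeros (p * q) := by
  rcases hp with rfl | hp
  · left; simp
  rcases hq with rfl | hq
  · left; simp
  right
  intro z hz
  rw [map_mul, mul_eq_zero] at hz
  exact hz.elim (hp z) (hq z)

theorem orz_pow {p : ℝ[X]} (hp : OnlyRealZeros p) (n : ℕ) : OnlyRealZeros (p ^ n) := by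
  induction n with
  | zero => right; intro z hz; simp at hz
  | succ n ih => rw [pow_succ]; exact orz_mul ih hp

theorem orz_C_mul {p : ℝ[X]} (c : ℝ) (hp : OnlyRealZeros p) : OnlyRealZeros (C c * p) := by
  rcases eq_or_ne c 0 with rfl | hc
  · left; simp
  refine orz_mul (Or.inr fun z hz => ?_) hp
  exfalso
  rw [aeval_C] at hz
  exact hc (by simpa using hz)

theorem orz_linear (a b : ℝ) : OnlyRealZeros (C a * X + C b) := by
  rcases eq_or_ne a 0 with rfl | ha
  · rcases eq_or_ne b 0 with rfl | hb
    · left; simp
    · right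
      intro z hz
      exfalso
      apply hb
      simpa using hz
  right
  intro z hz
  simp only [map_add, map_mul, aeval_C, aeval_X, Complex.coe_algebraMap] at hz
  have h1 := congrArg Complex.im hz
  simp at h1
  exact h1.resolve_left ha

theorem comp_linear_eq_zero {p : ℝ[X]} {a b : ℝ} (ha : a ≠ 0)
    (h : p.comp (C a * X + C b) = 0) : p = 0 := by
  have h1 : (p.comp (C a * X + C b)).comp (C a⁻¹ * X - C (a⁻¹ * b)) = p := by
    rw [comp_assoc]
    have : (C a * X + C b).comp (C a⁻¹ * X - C (a⁻¹ * b)) = (X : ℝ[X]) := by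
      simp only [add_comp, mul_comp, C_comp, X_comp]
      rw [mul_sub, ← mul_assoc, ← C_mul, ← C_mul, mul_inv_cancel₀ ha, ← mul_assoc,
        mul_inv_cancel₀ ha]
      simp
    rw [this, comp_X]
  rw [← h1, h, zero_comp]

theorem orz_comp {p : ℝ[X]} {a b : ℝ} (ha : a ≠ 0) :
    OnlyRealZeros (p.comp (C a * X + C b)) ↔ OnlyRealZeros p := by
  constructor
  · rintro (h | h)
    · exact Or.inl (comp_linear_eq_zero ha h)
    · right
      intro w hw
      have ha' : (a : ℂ) ≠ 0 := by exact_mod_cast ha
      have h1 := h ((w - b) / a) (by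
        rw [aeval_comp]
        simp only [map_add, map_mul, aeval_C, aeval_X, Complex.coe_algebraMap]
        rw [mul_div_cancel₀ _ ha', sub_add_cancel]
        exact hw)
      have h2 : ((w - b) / (a : ℂ)).im = w.im / a := by
        rw [Complex.div_ofReal_im]
        simp
      rw [h2, div_eq_zero_iff] at h1
      exact h1.resolve_right ha
  · rintro (h | h)
    · left; rw [h, zero_comp]
    · right
      intro z hz
      rw [aeval_comp] at hz
      have h1 := h _ hz
      simp only [map_add, map_mul, aeval_C, aeval_X, Complex.coe_algebraMap] at h1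
      simp at h1
      exact h1.resolve_left ha

theorem orz_card {p : ℝ[X]} (h : OnlyRealZeros p) : p.roots.card = p.natDegree := by
  rcases h with rfl | h
  · simp
  rcases eq_or_ne p 0 with rfl | hp0
  · simp
  have h1 : (p.map (algebraMap ℝ ℂ)).roots = p.roots.map (algebraMap ℝ ℂ) := by
    apply le_antisymm _ (Polynomial.map_roots_le (by
      rwa [Ne, Polynomial.map_eq_zero]))
    rw [Multiset.le_iff_count]
    intro z
    by_cases hz : z ∈ (p.map (algebraMap ℝ ℂ)).roots
    · have h2 : aeval z p = 0 := by
        have := (mem_roots (by rwa [Ne, Polynomial.map_eq_zero])).1 hz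
        rwa [IsRoot, eval_map_algebraMap] at this
      have h3 := h z h2
      obtain ⟨x, rfl⟩ : ∃ x : ℝ, z = algebraMap ℝ ℂ x := ⟨z.re, by
        apply Complex.ext <;> simp [h3]⟩
      rw [Multiset.count_map_eq_count' _ _ (algebraMap ℝ ℂ).injective, count_roots, count_roots,
        ← eq_rootMultiplicity_map (algebraMap ℝ ℂ).injective]
    · rw [Multiset.count_eq_zero_of_notMem hz]
      exact Nat.zero_le _
  have h2 : (p.map (algebraMap ℝ ℂ)).roots.card = (p.map (algebraMap ℝ ℂ)).natDegree :=
    (splits_iff_card_roots.1 (IsAlgClosed.splits _))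
  rw [h1, Multiset.card_map, natDegree_map] at h2
  exact h2

theorem orz_of_card {p : ℝ[X]} (h : p.roots.card = p.natDegree) : OnlyRealZeros p := by
  rcases eq_or_ne p 0 with rfl | hp0
  · left; rfl
  right
  intro z hz
  have h1 := Polynomial.C_leadingCoeff_mul_prod_multiset_X_sub_C h
  rw [← h1, map_mul, aeval_C, mul_eq_zero, map_multiset_prod, Multiset.map_map] at hz
  rcases hz with hz | hz
  · exfalso
    have : p.leadingCoeff = 0 := by simpa using hz
    exact hp0 (leadingCoeff_eq_zero.1 this)
  · rw [Multiset.prod_eq_zero_iff, Multiset.mem_map] at hz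
    obtain ⟨x, _, hx⟩ := hz
    simp only [Function.comp_apply, map_sub, aeval_X, aeval_C] at hx
    have : z = (x : ℂ) := by
      rw [sub_eq_zero] at hx
      simpa using hx
    rw [this]; simp

theorem orz_derivative {p : ℝ[X]} (h : OnlyRealZeros p) : OnlyRealZeros (derivative p) := by
  apply orz_of_card
  apply le_antisymm (card_roots' _)
  have h1 := orz_card h
  have h2 := card_roots_le_derivative p
  have h3 := natDegree_derivative_le p
  omega

theorem orz_iterate {p : ℝ[X]} (h : OnlyRealZeros p) (k : ℕ) :
    OnlyRealZeros (derivative^[k] p) := by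
  induction k with
  | zero => exact h
  | succ k ih => rw [Function.iterate_succ_apply']; exact orz_derivative ih

/-- Laguerre's inequality for products of linear factors. -/
theorem laguerre_prod (s : Multiset ℝ) (x : ℝ) :
    ((s.map fun a => X - C a).prod).eval x *
      (derivative (derivative (s.map fun a => X - C a).prod)).eval x ≤
    ((derivative (s.map fun a => X - C a).prod).eval x) ^ 2 := by
  induction s using Multiset.induction_on with
  | empty => simp
  | cons a s ih =>
    rw [Multiset.map_cons, Multiset.prod_cons]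
    set q := (s.map fun a => X - C a).prod
    simp only [derivative_mul, derivative_sub, derivative_X, derivative_C, sub_zero, one_mul,
      derivative_add, eval_add, eval_mul, eval_sub, eval_X, eval_C]
    nlinarith [sq_nonneg (q.eval x), mul_nonneg (sq_nonneg (x - a)) (sub_nonneg.2 ih)]

theorem laguerre {p : ℝ[X]} (h : OnlyRealZeros p) (x : ℝ) :
    p.eval x * (derivative (derivative p)).eval x ≤ ((derivative p).eval x) ^ 2 := by
  have h1 := Polynomial.C_leadingCoeff_mul_prod_multiset_X_sub_C (orz_card h)
  rw [← h1]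
  simp only [derivative_C_mul, eval_mul, eval_C]
  nlinarith [mul_nonneg (sq_nonneg p.leadingCoeff) (sub_nonneg.2 (laguerre_prod p.roots x))]

/-- The coefficient form of Laguerre's inequality. -/
theorem coeff_ineq {p : ℝ[X]} (h : OnlyRealZeros p) (m : ℕ) :
    ((m : ℝ) + 2) * (p.coeff m * p.coeff (m + 2)) ≤ ((m : ℝ) + 1) * p.coeff (m + 1) ^ 2 := by
  have h1 := laguerre (orz_iterate h m) 0
  have e1 : (derivative^[m] p).eval 0 = (m.factorial : ℝ) * p.coeff m := by
    rw [← coeff_zero_eq_eval_zero, coeff_iterate_derivative, Nat.zero_add, Nat.descFactorial_self,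
      nsmul_eq_mul]
  have e2 : (derivative (derivative^[m] p)).eval 0 = ((m + 1).factorial : ℝ) * p.coeff (m + 1) := by
    rw [← Function.iterate_succ_apply' derivative, ← coeff_zero_eq_eval_zero,
      coeff_iterate_derivative, Nat.zero_add, Nat.descFactorial_self, nsmul_eq_mul]
  have e3 : (derivative (derivative (derivative^[m] p))).eval 0 =
      ((m + 2).factorial : ℝ) * p.coeff (m + 2) := by
    rw [← Function.iterate_succ_apply' derivative, ← Function.iterate_succ_apply' derivative,
      ← coeff_zero_eq_eval_zero, coeff_iterate_derivative, Nat.zero_add, Nat.descFactorial_self,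
      nsmul_eq_mul]
  rw [e1, e2, e3, Nat.factorial_succ (m + 1), Nat.factorial_succ m] at h1
  push_cast at h1
  have hf : (0 : ℝ) < (m.factorial : ℝ) := by exact_mod_cast m.factorial_pos
  have h2 : ((m.factorial : ℝ) ^ 2 * ((m : ℝ) + 1)) *
      (((m : ℝ) + 2) * (p.coeff m * p.coeff (m + 2))) ≤
      ((m.factorial : ℝ) ^ 2 * ((m : ℝ) + 1)) * (((m : ℝ) + 1) * p.coeff (m + 1) ^ 2) := by
    nlinarith [h1]
  exact le_of_mul_le_mul_left h2 (by positivity)

end Pool.Agent.J6H32.Leg
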