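import Pool.Agent.J6H32.Leg.Asy
import Pool.Agent.J6H32.Leg.Real

set_option autoImplicit false

/-!
# No Legendre multiplier sequences of odd degree
-/

namespace Pool.Agent.J6H32.Leg

open Polynomial Finset Nat Filter Topology

/-- The coefficients of `((1 + x) / 2) ^ N` times `(2 N + 1)! / N! ^ 2`. -/
noncomputable def aN (N k : ℕ) : ℝ := ((2 * N + 1).choose (N - k) : ℝ) * (2 * (k : ℝ) + 1)

theorem coeff_sum_comp (γ : ℕ → ℝ) (N j : ℕ) :
    ((∑ k ∈ range (N + 1), C (γ k * aN N k) * legendre k).comp (C (-2) * X + C 1)).coeff j =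
      (-1) ^ j / (j ! : ℝ) ^ 2 * S N (fun k => (2 * (k : ℝ) + 1) * γ k * B ((k : ℝ) * (k + 1)) j) := by
  rw [← Polynomial.coe_compRingHom_apply, map_sum, finsetSum_coeff, S, mul_sum]
  apply sum_congr rfl
  intro k _
  rw [Polynomial.coe_compRingHom_apply, mul_comp, C_comp, coeff_C_mul, coeff_comp_legendre, aN]
  ring

theorem base_real (N : ℕ) :
    OnlyRealZeros (∑ k ∈ range (N + 1), C (aN N k) * legendre k) := by
  rw [← orz_comp (a := -2) (b := 1) (by norm_num)]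
  have h : (∑ k ∈ range (N + 1), C (aN N k) * legendre k).comp (C (-2) * X + C 1) =
      C ((2 * N + 1)! / (N ! : ℝ) ^ 2) * (C (-1) * X + C 1) ^ N := by
    ext j
    have h1 := coeff_sum_comp (fun _ => 1) N j
    simp only [one_mul, mul_one] at h1
    rw [h1, S_odd, coeff_C_mul]
    have h2 : ((C (-1) * X + C 1 : ℝ[X]) ^ N).coeff j = (-1) ^ j * N.choose j := by
      rw [add_pow, finsetSum_coeff]
      have : ∀ m ∈ range (N + 1), ((C (-1) * X : ℝ[X]) ^ m * C 1 ^ (N - m) * (N.choose m : ℝ[X])).coeff j =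
          if m = j then (-1) ^ j * (N.choose j : ℝ) else 0 := by
        intro m _
        rw [mul_pow, C_1, one_pow, mul_one, ← C_pow, mul_assoc, coeff_C_mul]
        rw [← C_eq_natCast, coeff_mul_C, coeff_X_pow]
        split_ifs with h1 h2 h2
        · subst h1; ring
        · exact absurd h1.symm h2
        · exact absurd h2.symm h1
        · ring
      rw [sum_congr rfl this, sum_ite_eq']
      split_ifs with h
      · rfl
      · rw [mem_range, not_lt] at h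
        rw [Nat.choose_eq_zero_of_lt (by omega)]; simp
    rw [h2]
    have hj : (j ! : ℝ) ≠ 0 := by exact_mod_cast (Nat.factorial_ne_zero _)
    field_simp
  rw [h]
  exact orz_C_mul _ (orz_pow (orz_linear _ _) _)

/-- The scaled polynomials. -/
noncomputable def fN (Q : ℝ[X]) (e N : ℕ) : ℝ[X] :=
  C (1 / (4 ^ N * (N : ℝ) ^ (e + 1))) *
    ((∑ k ∈ range (N + 1), C (Q.eval (k : ℝ) * aN N k) * legendre k).comp (C (-2) * X + C 1)).comp
      (C (1 / (N : ℝ)) * X + C 0)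

theorem fN_real {Q : ℝ[X]} (h : IsLegendreMultiplierSequence fun k => Q.eval (k : ℝ)) (e : ℕ) {N : ℕ}
    (hN : 1 ≤ N) : OnlyRealZeros (fN Q e N) := by
  have hN0 : (N : ℝ) ≠ 0 := by
    have : 0 < N := hN
    positivity
  refine orz_C_mul _ ((orz_comp (one_div_ne_zero hN0)).2 ((orz_comp (by norm_num)).2 ?_))
  exact h (N + 1) (aN N) (base_real N)

theorem fN_coeff (Q : ℝ[X]) (e N j : ℕ) : (fN Q e N).coeff j =
    (-1) ^ j / (j ! : ℝ) ^ 2 * (S N (fun k => (2 * (k : ℝ) + 1) * Q.eval (k : ℝ) *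
      B ((k : ℝ) * (k + 1)) j) / (4 ^ N * (N : ℝ) ^ (e + 1 + j))) := by
  rw [fN, coeff_C_mul, C_0, add_zero, comp_C_mul_X_coeff, coeff_sum_comp (fun k => Q.eval (k : ℝ))]
  rw [pow_add _ (e + 1) j, ← mul_assoc (4 ^ N), one_div_pow]
  ring

/-- The limit coefficients. -/
noncomputable def u (e j : ℕ) : ℝ := (-1) ^ j / (j ! : ℝ) ^ 2 * cc (e + 1 + j)

theorem u_rec (e j : ℕ) : 2 * ((j : ℝ) + 1) ^ 2 * u e (j + 1) = -((2 * e + 1 : ℝ) + 2 * (j + 1)) * u e j := by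
  unfold u
  have hj : (j ! : ℝ) ≠ 0 := by exact_mod_cast (Nat.factorial_ne_zero _)
  rw [show e + 1 + (j + 1) = (e + 1 + j) + 1 by ring, cc_succ, Nat.factorial_succ, pow_succ]
  push_cast
  field_simp
  ring

/-- `g m = ∑_{j ≤ m} u_j / (m - j)!`. -/
noncomputable def g (e m : ℕ) : ℝ := ∑ x ∈ antidiagonal m, u e x.1 * (1 / (x.2 ! : ℝ))

theorem g_rec (e m : ℕ) : 2 * ((m : ℝ) + 1) ^ 2 * g e (m + 1) = (2 * (m : ℝ) - (2 * e + 1)) * g e m := by
  -- the three sums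
  have h1 : ∑ x ∈ antidiagonal (m + 1), (2 * (x.1 : ℝ) ^ 2 * u e x.1) * (1 / (x.2 ! : ℝ)) =
      ∑ x ∈ antidiagonal m, -((2 * e + 1 : ℝ) + 2 * (x.1 + 1)) * u e x.1 * (1 / (x.2 ! : ℝ)) := by
    rw [Nat.antidiagonal_succ, sum_cons, sum_map]
    simp only [CharP.cast_eq_zero, ne_eq, OfNat.ofNat_ne_zero, not_false_eq_true, zero_pow, mul_zero,
      zero_mul, zero_add]
    apply sum_congr rfl
    rintro ⟨i, k⟩ _
    simp only [Function.Embedding.coe_prodMap, Function.Embedding.coeFn_mk, Prod.map_apply,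
      Function.Embedding.refl_apply, Nat.succ_eq_add_one]
    rw [← u_rec]
    push_cast
    ring
  have h2 : ∑ x ∈ antidiagonal (m + 1), (4 * (x.1 : ℝ) * u e x.1) * ((x.2 : ℝ) * (1 / (x.2 ! : ℝ))) =
      ∑ x ∈ antidiagonal m, (4 * (x.1 : ℝ) * u e x.1) * (1 / (x.2 ! : ℝ)) := by
    rw [Nat.antidiagonal_succ', sum_cons, sum_map]
    simp only [CharP.cast_eq_zero, mul_zero, zero_mul, zero_add]
    apply sum_congr rfl
    rintro ⟨i, k⟩ _
    simp only [Function.Embedding.coe_prodMap, Function.Embedding.coeFn_mk, Prod.map_apply,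
      Function.Embedding.refl_apply, Nat.succ_eq_add_one]
    have hk : (k ! : ℝ) ≠ 0 := by exact_mod_cast (Nat.factorial_ne_zero _)
    rw [Nat.factorial_succ]
    push_cast
    field_simp
  have h3 : ∑ x ∈ antidiagonal (m + 1), (2 * u e x.1) * ((x.2 : ℝ) ^ 2 * (1 / (x.2 ! : ℝ))) =
      ∑ x ∈ antidiagonal m, (2 * u e x.1) * (((x.2 : ℝ) + 1) * (1 / (x.2 ! : ℝ))) := by
    rw [Nat.antidiagonal_succ', sum_cons, sum_map]
    simp only [CharP.cast_eq_zero, ne_eq, OfNat.ofNat_ne_zero, not_false_eq_true, zero_pow, mul_zero,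
      zero_mul, zero_add]
    apply sum_congr rfl
    rintro ⟨i, k⟩ _
    simp only [Function.Embedding.coe_prodMap, Function.Embedding.coeFn_mk, Prod.map_apply,
      Function.Embedding.refl_apply, Nat.succ_eq_add_one]
    have hk : (k ! : ℝ) ≠ 0 := by exact_mod_cast (Nat.factorial_ne_zero _)
    rw [Nat.factorial_succ]
    push_cast
    field_simp
  have h4 : 2 * ((m : ℝ) + 1) ^ 2 * g e (m + 1) =
      ∑ x ∈ antidiagonal (m + 1), (2 * (x.1 : ℝ) ^ 2 * u e x.1) * (1 / (x.2 ! : ℝ)) +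
      ∑ x ∈ antidiagonal (m + 1), (4 * (x.1 : ℝ) * u e x.1) * ((x.2 : ℝ) * (1 / (x.2 ! : ℝ))) +
      ∑ x ∈ antidiagonal (m + 1), (2 * u e x.1) * ((x.2 : ℝ) ^ 2 * (1 / (x.2 ! : ℝ))) := by
    rw [g, mul_sum, ← sum_add_distrib, ← sum_add_distrib]
    apply sum_congr rfl
    rintro ⟨i, k⟩ hx
    rw [HasAntidiagonal.mem_antidiagonal] at hx
    have : ((m : ℝ) + 1) = i + k := by exact_mod_cast hx.symm
    rw [this]
    ring
  rw [h4, h1, h2, h3, ← sum_add_distrib, ← sum_add_distrib, g, mul_sum]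
  apply sum_congr rfl
  rintro ⟨i, k⟩ hx
  rw [HasAntidiagonal.mem_antidiagonal] at hx
  have : (m : ℝ) = i + k := by exact_mod_cast hx.symm
  rw [this]
  ring

theorem g_ne_zero (e m : ℕ) : g e m ≠ 0 := by
  induction m with
  | zero =>
    simp [g, u]
    exact (cc_pos _).ne'
  | succ m ih =>
    intro h
    have h1 := g_rec e m
    rw [h, mul_zero] at h1
    have h2 : (2 * (m : ℝ) - (2 * e + 1)) = 0 := by
      rcases mul_eq_zero.1 h1.symm with h3 | h3
      · exact h3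
      · exact absurd h3 ih
    have h3 : (2 * m : ℤ) - (2 * e + 1) = 0 := by exact_mod_cast h2
    omega

theorem g_violates (e : ℕ) :
    ((e + 1 : ℕ) + 1 : ℝ) * g e (e + 2) ^ 2 < ((e + 1 : ℕ) + 2 : ℝ) * (g e (e + 1) * g e (e + 3)) := by
  have h1 := g_rec e (e + 1)
  have h2 := g_rec e (e + 2)
  have h0 := g_ne_zero e (e + 1)
  push_cast at h1 h2 ⊢
  have a1 : g e (e + 2) = g e (e + 1) / (2 * ((e : ℝ) + 2) ^ 2) := by
    rw [eq_div_iff (by positivity)]
    linarith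
  have a2 : g e (e + 3) = 3 * g e (e + 1) / (2 * ((e : ℝ) + 2) ^ 2 * (2 * ((e : ℝ) + 3) ^ 2)) := by
    rw [eq_div_iff (by positivity)]
    have : g e (e + 3) * (2 * ((e : ℝ) + 2) ^ 2 * (2 * ((e : ℝ) + 3) ^ 2)) =
      2 * ((e : ℝ) + 2) ^ 2 * (2 * ((e : ℝ) + 2 + 1) ^ 2 * g e (e + 2 + 1)) := by
      rw [show e + 2 + 1 = e + 3 by ring]; ring
    rw [this, h2]
    have : 2 * ((e : ℝ) + 2) ^ 2 * ((2 * ((e : ℝ) + 2) - (2 * e + 1)) * g e (e + 2)) =
      3 * (2 * ((e : ℝ) + 1 + 1) ^ 2 * g e (e + 1 + 1)) := by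
      rw [show e + 1 + 1 = e + 2 by ring]; ring
    rw [this, h1]
    ring
  rw [a1, a2]
  have hg : 0 < g e (e + 1) ^ 2 := by positivity
  have e1 : ((e : ℝ) + 1 + 1) * (g e (e + 1) / (2 * ((e : ℝ) + 2) ^ 2)) ^ 2 =
    g e (e + 1) ^ 2 * (1 / (4 * ((e : ℝ) + 2) ^ 3)) := by
    field_simp
    ring
  have e2 : ((e : ℝ) + 1 + 2) * (g e (e + 1) * (3 * g e (e + 1) /
      (2 * ((e : ℝ) + 2) ^ 2 * (2 * ((e : ℝ) + 3) ^ 2)))) =
    g e (e + 1) ^ 2 * (3 / (4 * ((e : ℝ) + 2) ^ 2 * (e + 3))) := by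
    field_simp
    ring
  rw [e1, e2]
  apply mul_lt_mul_of_pos_left _ hg
  rw [div_lt_div_iff₀ (by positivity) (by positivity)]
  have he : (0 : ℝ) ≤ e := e.cast_nonneg
  have : (0 : ℝ) < 4 * ((e : ℝ) + 2) ^ 2 := by positivity
  nlinarith

theorem tendsto_choose (i : ℕ) :
    Tendsto (fun N : ℕ => ((C (1 / (N : ℝ)) * X + C 1 : ℝ[X]) ^ N).coeff i) atTop
      (𝓝 (1 / (i ! : ℝ))) := by
  have h1 := (tendsto_desc i).div_const (i ! : ℝ)
  refine h1.congr fun N => ?_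
  have h2 : ((C (1 / (N : ℝ)) * X + C 1 : ℝ[X]) ^ N).coeff i = (1 / (N : ℝ)) ^ i * N.choose i := by
    rw [add_pow, finsetSum_coeff]
    have : ∀ m ∈ range (N + 1),
        ((C (1 / (N : ℝ)) * X : ℝ[X]) ^ m * C 1 ^ (N - m) * (N.choose m : ℝ[X])).coeff i =
        if m = i then (1 / (N : ℝ)) ^ i * (N.choose i : ℝ) else 0 := by
      intro m _
      rw [mul_pow, C_1, one_pow, mul_one, ← C_pow, mul_assoc, coeff_C_mul]
      rw [← C_eq_natCast, coeff_mul_C, coeff_X_pow]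
      split_ifs with h1 h2 h2
      · subst h1; ring
      · exact absurd h1.symm h2
      · exact absurd h2.symm h1
      · ring
    rw [sum_congr rfl this, sum_ite_eq']
    split_ifs with h
    · rfl
    · rw [mem_range, not_lt] at h
      rw [Nat.choose_eq_zero_of_lt (by omega)]; simp
  have h4 : (N.choose i : ℝ) * (i ! : ℝ) = N.descFactorial i := by
    rw [Nat.descFactorial_eq_factorial_mul_choose]; push_cast; ring
  have hi : (i ! : ℝ) ≠ 0 := by exact_mod_cast (Nat.factorial_ne_zero _)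
  rw [h2, ← h4, one_div_pow, div_div, _root_.mul_div_mul_right _ _ hi]
  ring

theorem main (Q : ℝ[X]) (hQ : Odd Q.natDegree) :
    ¬ IsLegendreMultiplierSequence fun k => Q.eval (k : ℝ) := by
  intro h
  obtain ⟨e, he⟩ := hQ
  have hq : Q.coeff (2 * e + 1) ≠ 0 := by
    rw [← he]
    exact leadingCoeff_ne_zero.2 (by rintro rfl; simp at he)
  set q := Q.coeff (2 * e + 1) with hqdef
  -- coefficients of the products
  have hlim : ∀ m : ℕ, Tendsto (fun N : ℕ =>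
      (fN Q e N * (C (1 / (N : ℝ)) * X + C 1) ^ N).coeff m) atTop (𝓝 (2 * q * g e m)) := by
    intro m
    have h1 : 2 * q * g e m = ∑ x ∈ antidiagonal m,
        ((-1) ^ x.1 / (x.1 ! : ℝ) ^ 2 * (2 * q * cc (e + 1 + x.1))) * (1 / (x.2 ! : ℝ)) := by
      rw [g, mul_sum]
      apply sum_congr rfl
      intro x _
      unfold u
      ring
    rw [h1]
    simp_rw [coeff_mul]
    apply tendsto_finsetSum
    intro x _
    apply Tendsto.mul _ (tendsto_choose x.2)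
    simp_rw [fN_coeff]
    exact (asy_main e Q he.le x.1).const_mul _
  have hineq : ∀ N : ℕ, 1 ≤ N →
      (((e + 1 : ℕ) : ℝ) + 2) * ((fN Q e N * (C (1 / (N : ℝ)) * X + C 1) ^ N).coeff (e + 1) *
        (fN Q e N * (C (1 / (N : ℝ)) * X + C 1) ^ N).coeff (e + 1 + 2)) ≤
      (((e + 1 : ℕ) : ℝ) + 1) * (fN Q e N * (C (1 / (N : ℝ)) * X + C 1) ^ N).coeff (e + 1 + 1) ^ 2 :=
    fun N hN => coeff_ineq (orz_mul (fN_real h e hN) (orz_pow (orz_linear _ _) _)) (e + 1)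
  have h2 := le_of_tendsto_of_tendsto (((hlim (e + 1)).mul (hlim (e + 1 + 2))).const_mul
    (((e + 1 : ℕ) : ℝ) + 2)) (((hlim (e + 1 + 1)).pow 2).const_mul (((e + 1 : ℕ) : ℝ) + 1))
    (by filter_upwards [eventually_ge_atTop 1] with N hN using hineq N hN)
  have h3 := g_violates e
  have h4 : 0 < (2 * q) ^ 2 := by positivity
  have h5 := mul_lt_mul_of_pos_left h3 h4
  rw [show e + 1 + 2 = e + 3 by ring, show e + 1 + 1 = e + 2 by ring] at h2
  push_cast at h2 h5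
  nlinarith

end Pool.Agent.J6H32.Leg
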